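import Pool.Agent.H.MP_4a5259_an.Space

set_option autoImplicit false

namespace Pool.Agent.H.MP_4a5259_an

open Filter Topology Set MeasureTheory

variable {Ω : Type} [MeasurableSpace Ω] {μ : Measure Ω} [IsFiniteMeasure μ]

theorem int_min {h : Ω → ℝ} (hi : Integrable h μ) (M : ℝ) : Integrable (fun t => min (h t) M) μ :=
  hi.inf (integrable_const M)

theorem split {h : ℕ → Ω → ℝ} {C : ℝ} (h0 : ∀ n t, 0 ≤ h n t) (hi : ∀ n, Integrable (h n) μ)
    (hC : ∀ n, ∫ t, h n t ∂μ ≤ C) : ∃ M : ℕ → ℕ, (∀ j, 2 ^ j ≤ M j) ∧ Monotone M ∧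
      ∀ k, ∀ᶠ n in hyperfilter ℕ, ∀ j, j + 2 ≤ k → ∀ s : ℝ, M (j + 1) ≤ s → s ≤ M (j + 2) →
        s * μ.real {t | s ≤ h n t} ≤ 6 * (1 / 2) ^ j := by
  have b : ∀ n (M : ℕ), ∫ t, min (h n t) M ∂μ ∈ Icc 0 C := fun n M =>
    ⟨integral_nonneg fun t => le_min (h0 n t) (Nat.cast_nonneg M),
      (integral_mono (int_min (hi n) M) (hi n) fun t => min_le_left _ _).trans (hC n)⟩
  have ex : ∀ M : ℕ, ∃ a ∈ Icc 0 C,
      Tendsto (fun n => ∫ t, min (h n t) M ∂μ) (hyperfilter ℕ) (𝓝 a) := fun M =>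
    isCompact_Icc.ultrafilter_le_nhds ((hyperfilter ℕ).map fun n => ∫ t, min (h n t) M ∂μ)
      (le_principal_iff.mpr (mem_map.mpr (univ_mem' fun n => b n M)))
  choose α a1 a2 using ex
  have mono : Monotone α := fun M M' hM => le_of_tendsto_of_tendsto' (a2 M) (a2 M') fun n =>
    integral_mono (int_min (hi n) M) (int_min (hi n) M') fun t =>
      min_le_min_left _ (Nat.cast_le.mpr hM)
  have bdd : BddAbove (range α) := ⟨C, by rintro _ ⟨M, rfl⟩; exact (a1 M).2⟩
  choose N hN using fun j : ℕ => exists_lt_of_lt_ciSup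
    (show (⨆ M, α M) - (1 / 2) ^ j < ⨆ M, α M from sub_lt_self _ (by positivity))
  let M : ℕ → ℕ := fun j => Nat.rec (max 1 (N 0)) (fun j m => max (2 * m) (N (j + 1))) j
  have m1 : ∀ j, 2 * M j ≤ M (j + 1) := fun j => le_max_left _ _
  have m2 : ∀ j, N j ≤ M j := fun j => by cases j <;> exact le_max_right _ _
  have m3 : ∀ j, 2 ^ j ≤ M j := fun j => by
    induction j with
    | zero => exact le_max_left _ _
    | succ j ih => have := m1 j; omega
  have m4 : Monotone M := monotone_nat_of_le_succ fun j => by have := m1 j; omega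
  clear_value M
  refine ⟨M, m3, m4, fun k => ?_⟩
  have ev : ∀ᶠ n in hyperfilter ℕ, ∀ j ∈ Finset.range (k + 1),
      dist (∫ t, min (h n t) (Nat.cast (M j)) ∂μ) (α (M j)) < (1 / 2 : ℝ) ^ k :=
    (eventually_all_finset _).mpr fun j _ => by
      exact Metric.tendsto_nhds.mp (a2 (M j)) _ (pow_pos one_half_pos k)
  filter_upwards [ev] with n hn j hj s s1 s2
  have e1 := abs_lt.mp (hn j (Finset.mem_range.mpr (by omega)))
  have e2 := abs_lt.mp (hn (j + 2) (Finset.mem_range.mpr (by omega)))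
  have e3 := (hN j).le.trans (mono (m2 j))
  have e4 := le_ciSup bdd (M (j + 2))
  have e5 : (1 / 2 : ℝ) ^ k ≤ (1 / 2) ^ j :=
    pow_le_pow_of_le_one (by norm_num) (by norm_num) (by omega)
  have c1 : (2 * M j : ℝ) ≤ M (j + 1) := by exact_mod_cast m1 j
  have c0 : (0 : ℝ) ≤ M j := Nat.cast_nonneg _
  have mk := mul_meas_ge_le_integral_of_nonneg (μ := μ)
    (f := fun t => min (h n t) (M (j + 2)) - min (h n t) (M j))
    (.of_forall fun t => sub_nonneg.mpr (min_le_min_left _ (by linarith)))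
    ((int_min (hi n) _).sub (int_min (hi n) _)) (s / 2)
  rw [integral_sub (int_min (hi n) _) (int_min (hi n) _)] at mk
  have sub : μ.real {t | s ≤ h n t} ≤
      μ.real {t | s / 2 ≤ min (h n t) (M (j + 2)) - min (h n t) (M j)} :=
    measureReal_mono fun t ht => by
      have a := le_min (show s ≤ h n t from ht) s2
      have b := min_le_right (h n t) (M j)
      simp only [mem_ofPred_eq]
      linarith
  have := mul_le_mul_of_nonneg_left sub (show 0 ≤ s / 2 by linarith)
  linarith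

theorem bc {S : ℕ → Set Ω} {q : ℕ → ℝ} (hq : Summable q) (h : ∀ k, μ.real (S k) ≤ q k) :
    ∀ᵐ t ∂μ, ∀ᶠ k in atTop, t ∉ S k := by
  have := (Summable.of_nonneg_of_le (fun k => measureReal_nonneg) h hq).tsum_ofReal_ne_top
  simp only [ofReal_measureReal (measure_ne_top μ _)] at this
  exact ae_eventually_notMem this

theorem middle {H : ℕ → Ω → ℝ} {C D : ℝ} (h0 : ∀ n t, 0 ≤ H n t) (hi : ∀ n, Integrable (H n) μ)
    (hC : ∀ n, ∫ t, H n t ∂μ ≤ C) {M : ℕ → ℕ} (m3 : ∀ j, 2 ^ j ≤ M j) (m4 : Monotone M)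
    (hM : ∀ k j, j + 2 ≤ k → ∀ s : ℝ, M (j + 1) ≤ s → s ≤ M (j + 2) →
      s * μ.real {t | s ≤ H k t} ≤ 6 * (1 / 2) ^ j)
    {a : ℕ → ℝ} (a0 : ∀ k, 0 ≤ a k) (a1 : Tendsto a atTop (𝓝 0))
    (a2 : ∀ K : Finset ℕ, (∀ k ∈ K, K.card ≤ k * M k) → ∑ k ∈ K, a k ≤ D) :
    ∀ᵐ t ∂μ, ∀ᶠ k in atTop, H k t * a k ≤ 1 := by
  classical
  obtain ⟨J, hJ⟩ := exists_nat_gt D
  have Mpos : ∀ j, (0 : ℝ) < M j := fun j => by
    exact_mod_cast lt_of_lt_of_le (by positivity) (m3 j)
  let cls : ℕ → ℕ → Prop := fun j k =>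
    J ≤ j ∧ j + 2 ≤ k ∧ a k * M (j + 1) ≤ 1 ∧ 1 < a k * M (j + 2)
  have c1 : ∀ j (K : Finset ℕ), (∀ k ∈ K, cls j k) → ∑ k ∈ K, a k ≤ D := fun j K hK => by
    have b : ∀ k ∈ K, (j + 2) * M (j + 2) ≤ k * M k := fun k hk =>
      Nat.mul_le_mul (hK k hk).2.1 (m4 (hK k hk).2.1)
    rcases le_total K.card ((j + 2) * M (j + 2)) with h | h
    · exact a2 K fun k hk => h.trans (b k hk)
    obtain ⟨K', h1, h2⟩ := Finset.exists_subset_card_eq h
    have h3 := a2 K' fun k hk => h2 ▸ b k (h1 hk)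
    have h4 := Finset.sum_le_sum fun k (hk : k ∈ K') => (hK k (h1 hk)).2.2.2.le
    rw [← Finset.sum_mul, Finset.sum_const, h2, nsmul_eq_mul, mul_one] at h4
    push_cast at h4
    have h5 := le_of_mul_le_mul_right h4 (by exact_mod_cast Mpos (j + 2))
    rcases K.eq_empty_or_nonempty with rfl | ⟨k, hk⟩
    · simpa using a2 ∅ (by simp)
    · have : (J : ℝ) ≤ j := by exact_mod_cast (hK k hk).1
      linarith
  have ex : ∀ k, ∃ j, (a k * M (J + 1) ≤ 1 → 1 < a k * M k → cls j k) := fun k => by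
    by_cases h : a k * M (J + 1) ≤ 1 ∧ 1 < a k * M k
    · have e : ∃ i, 1 < a k * M i := ⟨k, h.2⟩
      have i1 := Nat.find_spec e
      have i2 : Nat.find e ≤ k := Nat.find_min' e h.2
      have i3 : J + 2 ≤ Nat.find e := by
        by_contra hc
        have : (M (Nat.find e) : ℝ) ≤ M (J + 1) := by exact_mod_cast m4 (by omega)
        nlinarith [a0 k, h.1]
      obtain ⟨j, hj⟩ : ∃ j, Nat.find e = j + 2 := ⟨Nat.find e - 2, by omega⟩
      exact ⟨j, fun _ _ => ⟨by omega, by omega,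
        not_lt.mp (Nat.find_min e (m := j + 1) (by omega)), hj ▸ i1⟩⟩
    · exact ⟨0, fun h1 h2 => absurd ⟨h1, h2⟩ h⟩
  choose c hc using ex
  have D0 : 0 ≤ D := by simpa using a2 ∅ (by simp)
  let q : ℕ → ℝ := fun k => if cls (c k) k then 6 * (1 / 2) ^ c k * a k else 0
  have q0 : ∀ k, 0 ≤ q k := fun k => by
    have := a0 k
    simp only [q]
    split_ifs <;> positivity
  have hq : Summable q := summable_of_sum_le (c := 6 * D * 2) q0 fun K => by
    rw [← Finset.sum_filter, ← Finset.sum_fiberwise_of_maps_to (g := c) (t := K.image c)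
      fun k hk => Finset.mem_image_of_mem c (Finset.mem_filter.mp hk).1]
    refine le_trans (Finset.sum_le_sum (g := fun j => 6 * D * (1 / 2) ^ j) fun j _ => ?_) ?_
    · have := c1 j ((K.filter fun k => cls (c k) k).filter fun k => c k = j) fun k hk => by
        obtain ⟨h1, h2⟩ := Finset.mem_filter.mp hk
        exact h2 ▸ (Finset.mem_filter.mp h1).2
      rw [Finset.sum_congr rfl (g := fun k => 6 * (1 / 2) ^ j * a k) fun k hk => by
        rw [(Finset.mem_filter.mp hk).2], ← Finset.mul_sum]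
      have p : (0 : ℝ) ≤ (1 / 2) ^ j := by positivity
      nlinarith
    · rw [← Finset.mul_sum]
      exact mul_le_mul_of_nonneg_left ((summable_geometric_two.sum_le_tsum _
        fun _ _ => by positivity).trans_eq tsum_geometric_two) (by positivity)
  have C0 : 0 ≤ C := (integral_nonneg (h0 0)).trans (hC 0)
  have key := bc (μ := μ) (S := fun k => {t | a k * M (J + 1) ≤ 1 ∧ 1 < H k t * a k})
    ((summable_geometric_two.mul_left C).add hq) fun k => by
      have p : (0 : ℝ) ≤ C * (1 / 2) ^ k := by positivity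
      by_cases h1 : a k * M (J + 1) ≤ 1
      swap
      · simpa [h1] using add_nonneg p (q0 k)
      by_cases h2 : 1 < a k * M k
      · have h3 := hc k h1 h2
        have ap : 0 < a k := pos_of_mul_pos_right (by linarith) (Mpos k).le
        have h4 := hM k (c k) h3.2.1 (1 / a k)
          (by rw [le_div_iff₀' ap]; exact h3.2.2.1) (by rw [div_le_iff₀' ap]; exact h3.2.2.2.le)
        have h5 : μ.real {t | a k * M (J + 1) ≤ 1 ∧ 1 < H k t * a k} ≤
            μ.real {t | 1 / a k ≤ H k t} :=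
          measureReal_mono fun t ht => (div_le_iff₀ ap).mpr ht.2.le
        rw [one_div, inv_mul_le_iff₀ ap] at h4
        simp only [q, if_pos h3, one_div] at h5 ⊢
        simp only [one_div] at h4 p
        linarith
      · have h4 := (mul_meas_ge_le_integral_of_nonneg (.of_forall (h0 k)) (hi k) (M k)).trans
          (hC k)
        have h5 : μ.real {t | a k * M (J + 1) ≤ 1 ∧ 1 < H k t * a k} ≤
            μ.real {t | (M k : ℝ) ≤ H k t} :=
          measureReal_mono fun t ht => by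
            by_contra hc
            have := mul_le_mul_of_nonneg_right (not_le.mp hc).le (a0 k)
            linarith [ht.2]
        have h6 : (2 : ℝ) ^ k ≤ M k := by exact_mod_cast m3 k
        have h7 := mul_le_mul_of_nonneg_right h6
          (measureReal_nonneg (μ := μ) (s := {t | (M k : ℝ) ≤ H k t}))
        have h8 : μ.real {t | (M k : ℝ) ≤ H k t} ≤ C * (1 / 2) ^ k := by
          rw [one_div, inv_pow, ← div_eq_mul_inv, le_div_iff₀' (by positivity)]
          linarith
        linarith [q0 k]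
  have ev : ∀ᶠ k in atTop, a k * M (J + 1) ≤ 1 :=
    (a1.mul_const (M (J + 1) : ℝ)).eventually (ge_mem_nhds (by simp))
  filter_upwards [key] with t ht
  filter_upwards [ht, ev] with k h1 h2
  exact not_lt.mp fun h => h1 ⟨h2, h⟩

theorem co_le (x : E) (i : ℕ) : |co x i| ≤ ‖x‖ := by
  simpa [pr_single] using abs_pr_le (W.pos i) x

theorem main (f : ℕ → Ω → StrongDual ℝ E) (hf : ∀ n, Integrable (f n) μ) {C : ℝ}
    (hC : ∀ n, ∫ t, ‖f n t‖ ∂μ ≤ C)
    (hm : ∀ x : E, TendstoInMeasure μ (fun n t => f n t x) atTop fun _ => 0) :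
    ∃ g : ℕ → ℕ, StrictMono g ∧ ∀ x : E, ∀ᵐ t ∂μ, Tendsto (fun k => f (g k) t x) atTop (𝓝 0) := by
  obtain ⟨M, m3, m4, hM⟩ := split (h := fun n t => ‖f n t‖) (fun _ _ => norm_nonneg _)
    (fun n => (hf n).norm) hC
  have step : ∀ k n0 m : ℕ, ∃ n m' : ℕ, n0 < n ∧ m < m' ∧ (k + 1) * M (k + 1) ≤ m' ∧
      (∀ j, j + 2 ≤ k → ∀ s : ℝ, M (j + 1) ≤ s → s ≤ M (j + 2) →
        s * μ.real {t | s ≤ ‖f n t‖} ≤ 6 * (1 / 2) ^ j) ∧
      μ.real (⋃ i ∈ Finset.range m, {t | (1 / 2) ^ k / (m + 1) ≤ ‖f n t (e i)‖}) ≤ (1 / 2) ^ k ∧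
      μ.real {t | (1 / 2) ^ k ≤ ‖(f n t).comp (P (Ici m'))‖} ≤ (1 / 2) ^ k := fun k n0 m => by
    have p : (0 : ℝ) < (1 / 2) ^ k / (m + 1) := by positivity
    have e1 : ∀ᶠ n in atTop, ∀ i ∈ Finset.range m,
        μ.real {t | (1 / 2) ^ k / (m + 1) ≤ ‖f n t (e i)‖} ≤ (1 / 2) ^ k / (m + 1) :=
      (eventually_all_finset _).mpr fun i _ => by
        have := tendstoInMeasure_iff_measureReal_norm.mp (hm (e i)) _ p
        simpa using this.eventually (ge_mem_nhds p)
    obtain ⟨n, ⟨n1, n2⟩, n3⟩ := ((((eventually_gt_atTop n0).and e1).filter_mono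
      Nat.hyperfilter_le_atTop).and (hM k)).exists
    have e2 : TendstoInMeasure μ (fun b t => (f n t).comp (P (Ici b))) atTop fun _ => 0 :=
      tendstoInMeasure_of_tendsto_ae
        (fun b => (((ContinuousLinearMap.compL ℝ E E ℝ).flip
          (P (Ici b))).continuous.comp_aestronglyMeasurable (hf n).1))
        (.of_forall fun t => tendsto_zero_iff_norm_tendsto_zero.mpr (shrink _))
    have p2 : (0 : ℝ) < (1 / 2) ^ k := by positivity
    have e3 := (tendstoInMeasure_iff_measureReal_norm.mp e2 _ p2).eventually (ge_mem_nhds p2)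
    obtain ⟨b, ⟨b1, b2⟩, b3⟩ := (((eventually_gt_atTop m).and
      (eventually_ge_atTop ((k + 1) * M (k + 1)))).and e3).exists
    refine ⟨n, b, n1, b1, b2, n3, (measureReal_biUnion_finset_le _ _).trans
      ((Finset.sum_le_sum n2).trans ?_), by simpa using b3⟩
    rw [Finset.sum_const, Finset.card_range, nsmul_eq_mul, ← mul_div_assoc,
      div_le_iff₀ (by positivity)]
    nlinarith
  choose nn mm s1 s2 s3 s4 s5 s6 using step
  let r : ℕ → ℕ × ℕ := fun k => Nat.rec (0, 0) (fun k p => (nn k p.1 p.2, mm k p.1 p.2)) k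
  let g : ℕ → ℕ := fun k => (r (k + 1)).1
  let m : ℕ → ℕ := fun k => (r k).2
  have hg : StrictMono g := strictMono_nat_of_lt_succ fun k => s1 _ _ _
  have hm' : StrictMono m := strictMono_nat_of_lt_succ fun k => s2 _ _ _
  have hmM : ∀ k, k * M k ≤ m k := fun k => by
    cases k with
    | zero => simp
    | succ k => exact s3 _ _ _
  have A1 := bc (μ := μ) summable_geometric_two fun k => s5 k (r k).1 (r k).2
  have A2 := bc (μ := μ) summable_geometric_two fun k => s6 k (r k).1 (r k).2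
  have A3 : ∀ x : E, ∀ᵐ t ∂μ, ∀ᶠ k in atTop,
      ‖f (g k) t‖ * ‖P (Ico (m k) (m (k + 1))) x‖ ≤ 1 := fun x =>
    middle (H := fun k t => ‖f (g k) t‖) (fun _ _ => norm_nonneg _) (fun k => (hf _).norm)
      (fun k => hC _) m3 m4 (fun k => s4 k (r k).1 (r k).2) (fun _ => norm_nonneg _)
      (squeeze_zero (fun _ => norm_nonneg _) (fun k => by
        have := P_le (Iio (m (k + 1))) (P (Ici (m k)) x)
        rwa [P_P, Iio_inter_Ici] at this) ((tail x).comp hm'.tendsto_atTop))
      fun K hK => lower hm'.monotone K (fun k hk => (hK k hk).trans (hmM k)) x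
  refine ⟨g, hg, fun x => ?_⟩
  filter_upwards [A1, A2, ae_all_iff.mpr fun N : ℕ => A3 (((N : ℝ) + 1) • x)] with t h1 h2 h3
  have geo : Tendsto (fun k : ℕ => (1 / 2 : ℝ) ^ k * ‖x‖) atTop (𝓝 0) := by
    simpa using (tendsto_pow_atTop_nhds_zero_of_lt_one (r := (1 / 2 : ℝ)) (by norm_num)
      (by norm_num)).mul_const ‖x‖
  have t1 : Tendsto (fun k => f (g k) t (P (Iio (m k)) x)) atTop (𝓝 0) := by
    refine squeeze_zero_norm' ?_ geo
    filter_upwards [h1] with k hk
    simp only [mem_iUnion, mem_ofPred_eq, not_exists, not_le] at hk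
    rw [P_Iio, map_sum]
    refine (norm_sum_le_of_le (n := fun _ => ‖x‖ * ((1 / 2) ^ k / (m k + 1))) _
      fun i hi => ?_).trans ?_
    · rw [map_smul, norm_smul]
      exact mul_le_mul (co_le x i) (hk i hi).le (norm_nonneg _) (norm_nonneg _)
    · rw [Finset.sum_const, Finset.card_range, nsmul_eq_mul, ← mul_div_assoc, ← mul_div_assoc,
        div_le_iff₀ (by positivity)]
      have : (0 : ℝ) ≤ (1 / 2) ^ k * ‖x‖ := by positivity
      nlinarith
  have t2 : Tendsto (fun k => f (g k) t (P (Ici (m (k + 1))) x)) atTop (𝓝 0) := by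
    refine squeeze_zero_norm' ?_ geo
    filter_upwards [h2] with k hk
    exact ContinuousLinearMap.le_of_opNorm_le _ (not_le.mp hk).le x
  have t3 : Tendsto (fun k => f (g k) t (P (Ico (m k) (m (k + 1))) x)) atTop (𝓝 0) := by
    refine Metric.tendsto_nhds.mpr fun ε hε => ?_
    obtain ⟨N, hN⟩ := exists_nat_one_div_lt hε
    filter_upwards [h3 N] with k hk
    have p : (0 : ℝ) < N + 1 := by positivity
    rw [map_smul, norm_smul, Real.norm_of_nonneg p.le, mul_left_comm, ← le_div_iff₀' p] at hk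
    rw [dist_zero_right]
    exact (((f (g k) t).le_opNorm _).trans hk).trans_lt hN
  have := t1.add (t3.add t2)
  simp only [← map_add, ← P_split (hm'.monotone (Nat.le_succ _)), ← P_split', add_zero] at this
  exact this

end Pool.Agent.H.MP_4a5259_an
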