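import Mathlib

set_option autoImplicit false

namespace Pool.Agent.H.MP_4a5259_an

open Filter Topology Finsupp Set
open scoped ENNReal

/-- the norming set of the Tsirelson space -/
inductive W : (ℕ →₀ ℝ) → Prop
  | pos (n : ℕ) : W (single n 1)
  | neg (n : ℕ) : W (single n (-1))
  | comb (K : Finset ℕ) (g : ℕ → ℕ →₀ ℝ) (hW : ∀ j ∈ K, W (g j))
      (hsep : ∀ j ∈ K, ∀ k ∈ K, j < k → ∀ u, g j u ≠ 0 → ∀ v, g k v ≠ 0 → u < v)
      (hN : ∀ j ∈ K, ∀ u, g j u ≠ 0 → K.card ≤ u) : W ((1 / 2 : ℝ) • ∑ j ∈ K, g j)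

theorem W.zero : W 0 := by simpa using W.comb ∅ 0 (by simp) (by simp) (by simp)

theorem W.neg' {g : ℕ →₀ ℝ} (h : W g) : W (-g) := by
  induction h with
  | pos n => simpa using W.neg n
  | neg n => simpa using W.pos n
  | comb K g _ hsep hN ih =>
    have := W.comb K (fun j => -g j) ih (by simpa using hsep) (by simpa using hN)
    simpa using this

theorem W.filter {g : ℕ →₀ ℝ} (h : W g) (p : ℕ → Prop) [DecidablePred p] : W (g.filter p) := by
  induction h with
  | pos n =>
    by_cases hn : p n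
    · rw [filter_single_of_pos p hn]; exact W.pos n
    · rw [filter_single_of_neg p hn]; exact W.zero
  | neg n =>
    by_cases hn : p n
    · rw [filter_single_of_pos p hn]; exact W.neg n
    · rw [filter_single_of_neg p hn]; exact W.zero
  | comb K g _ hsep hN ih =>
    have k : ∀ j u, (g j).filter p u ≠ 0 → g j u ≠ 0 := fun j u h h0 => h (by
      simp [filter_apply, h0])
    rw [filter_smul, filter_sum]
    exact W.comb K (fun j => (g j).filter p) ih
      (fun j hj l hl hjl u hu v hv => hsep j hj l hl hjl u (k _ _ hu) v (k _ _ hv))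
      fun j hj u hu => hN j hj u (k _ _ hu)

theorem W.le_one {g : ℕ →₀ ℝ} (h : W g) (i : ℕ) : g i ≤ 1 := by
  induction h with
  | pos n => rw [single_apply]; split_ifs <;> norm_num
  | neg n => rw [single_apply]; split_ifs <;> norm_num
  | comb K g _ hsep hN ih =>
    simp only [Finsupp.smul_apply, Finsupp.finsetSum_apply, smul_eq_mul]
    by_cases h : ∃ j ∈ K, g j i ≠ 0
    · obtain ⟨j, hj, h0⟩ := h
      rw [Finset.sum_eq_single j (fun k hk hkj => ?_) fun h => absurd hj h]
      · linarith [ih j hj]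
      · by_contra hc
        rcases lt_or_gt_of_ne hkj with h | h
        · exact lt_irrefl _ (hsep k hk j hj h i hc i h0)
        · exact lt_irrefl _ (hsep j hj k hk h i h0 i hc)
    · push Not at h
      rw [Finset.sum_eq_zero h]
      norm_num

/-- pairing -/
noncomputable def pr (x : ℕ → ℝ) : (ℕ →₀ ℝ) →ₗ[ℝ] ℝ := linearCombination ℝ x

theorem pr_eq (x : ℕ → ℝ) (g : ℕ →₀ ℝ) : pr x g = ∑ i ∈ g.support, g i * x i := rfl

theorem pr_single (x : ℕ → ℝ) (i : ℕ) (c : ℝ) : pr x (single i c) = c * x i := by simp [pr]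

theorem pr_zero {x : ℕ → ℝ} {g : ℕ →₀ ℝ} (h : ∀ u, g u ≠ 0 → x u = 0) : pr x g = 0 :=
  (pr_eq x g).trans (Finset.sum_eq_zero fun i hi => by rw [h i (mem_support_iff.mp hi), mul_zero])

theorem pr_ind (x : ℕ → ℝ) (S : Set ℕ) [DecidablePred (· ∈ S)] (g : ℕ →₀ ℝ) :
    pr (S.indicator x) g = pr x (g.filter (· ∈ S)) := by
  rw [pr_eq, pr_eq, support_filter, Finset.sum_filter]
  refine Finset.sum_congr rfl fun i _ => ?_
  by_cases h : i ∈ S <;> simp [h]

/-- the ambient space -/
abbrev L := lp (fun _ : {g // W g} => ℝ) ∞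

/-- the Tsirelson space as a subspace -/
def T : Submodule ℝ L where
  carrier := {F | ∀ g, F g = pr (fun i => F ⟨single i 1, W.pos i⟩) g.1}
  add_mem' := fun {F G} hF hG g => by
    simp only [lp.coeFn_add, Pi.add_apply, hF g, hG g, pr_eq, mul_add, Finset.sum_add_distrib]
  zero_mem' := fun g => by simp [pr_eq]
  smul_mem' := fun c F hF g => by
    simp only [lp.coeFn_smul, Pi.smul_apply, hF g, pr_eq, smul_eq_mul, Finset.mul_sum,
      mul_left_comm]

theorem T_closed : IsClosed (T : Set L) := by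
  have h : ∀ g, Continuous fun F : L => F g := fun g => (lp.lipschitzWith_one_eval ∞ g).continuous
  simp only [T, Submodule.coe_set_mk, AddSubmonoid.coe_set_mk, AddSubsemigroup.coe_set_mk,
    ofPred_forall, pr_eq]
  exact isClosed_iInter fun g => isClosed_eq (h g)
    (continuous_finsetSum _ fun i _ => (h _).const_mul _)

/-- the Tsirelson space -/
def E : Type := ↥T

noncomputable instance : NormedAddCommGroup E := inferInstanceAs (NormedAddCommGroup ↥T)

noncomputable instance : NormedSpace ℝ E := inferInstanceAs (NormedSpace ℝ ↥T)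

instance : CompleteSpace E := T_closed.completeSpace_coe

/-- evaluation of a norming functional -/
noncomputable def ev (g : ℕ →₀ ℝ) (h : W g) : E →L[ℝ] ℝ :=
  LinearMap.mkContinuous
    { toFun := fun x => x.1 ⟨g, h⟩
      map_add' := fun _ _ => rfl
      map_smul' := fun _ _ => rfl } 1
    fun x => (lp.norm_apply_le_norm (by simp) x.1 ⟨g, h⟩).trans_eq (one_mul _).symm

/-- coordinate functional -/
noncomputable def cl (i : ℕ) : E →L[ℝ] ℝ := ev _ (W.pos i)

/-- coordinates -/
noncomputable def co (x : E) (i : ℕ) : ℝ := cl i x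

theorem ev_eq (g : ℕ →₀ ℝ) (h : W g) (x : E) : ev g h x = pr (co x) g := x.2 ⟨g, h⟩

theorem abs_pr_le {g : ℕ →₀ ℝ} (h : W g) (x : E) : |pr (co x) g| ≤ ‖x‖ := by
  rw [← ev_eq g h]
  exact lp.norm_apply_le_norm (by simp) x.1 ⟨g, h⟩

theorem pr_le {g : ℕ →₀ ℝ} (h : W g) (x : E) : pr (co x) g ≤ ‖x‖ :=
  (le_abs_self _).trans (abs_pr_le h x)

theorem abs_le_of {x : ℕ → ℝ} {C : ℝ} (h : ∀ g, W g → pr x g ≤ C) {g : ℕ →₀ ℝ} (hg : W g) :
    |pr x g| ≤ C := abs_le.mpr ⟨by have := h _ hg.neg'; rw [map_neg] at this; linarith, h g hg⟩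

theorem norm_le {x : E} {C : ℝ} (h : ∀ g, W g → pr (co x) g ≤ C) : ‖x‖ ≤ C :=
  lp.norm_le_of_forall_le (f := x.1) (by simpa using h 0 W.zero) fun g => by
    have := abs_le_of h g.2
    rwa [← ev_eq _ g.2] at this

theorem exists_pr {x : E} {c : ℝ} (h : c < ‖x‖) : ∃ g, W g ∧ c < pr (co x) g := by
  by_contra hc
  push Not at hc
  exact absurd (norm_le hc) (not_le.mpr h)

/-- a vector from its coordinates -/
noncomputable def mk (x : ℕ → ℝ) (C : ℝ) (h : ∀ g, W g → pr x g ≤ C) : E :=
  ⟨⟨fun g => pr x g.1, memℓp_infty ⟨C, by rintro _ ⟨g, rfl⟩; exact abs_le_of h g.2⟩⟩,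
    fun g => by simp [pr_single]⟩

theorem co_mk (x : ℕ → ℝ) (C : ℝ) (h : ∀ g, W g → pr x g ≤ C) : co (mk x C h) = x := by
  ext i
  exact (pr_single x i 1).trans (one_mul _)

theorem ext_co {x y : E} (h : co x = co y) : x = y := by
  refine Subtype.ext (lp.ext (funext fun g => ?_))
  have h1 := ev_eq _ g.2 x
  rw [h, ← ev_eq _ g.2 y] at h1
  exact h1

theorem co_add (x y : E) : co (x + y) = co x + co y := funext fun i => map_add (cl i) x y

theorem co_smul (c : ℝ) (x : E) : co (c • x) = c • co x := funext fun i => map_smul (cl i) c x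

theorem co_sum {s : Finset ℕ} (x : ℕ → E) (i : ℕ) : co (∑ j ∈ s, x j) i = ∑ j ∈ s, co (x j) i :=
  map_sum (cl i) x s

theorem ind_le (S : Set ℕ) (x : E) (g : ℕ →₀ ℝ) (h : W g) : pr (S.indicator (co x)) g ≤ ‖x‖ := by
  classical
  rw [pr_ind]
  exact pr_le (h.filter _) x

/-- coordinate projection -/
noncomputable def P (S : Set ℕ) : E →L[ℝ] E :=
  LinearMap.mkContinuous
    { toFun := fun x => mk (S.indicator (co x)) ‖x‖ (ind_le S x)
      map_add' := fun x y => ext_co (by simp only [co_add, co_mk, indicator_add'])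
      map_smul' := fun c x => ext_co (by
        simp only [co_smul, co_mk, RingHom.id_apply]
        exact indicator_const_smul S c (co x)) } 1
    fun x => norm_le fun g h => by
      simp only [LinearMap.coe_mk, AddHom.coe_mk, co_mk, one_mul]
      exact ind_le S x g h

theorem co_P (S : Set ℕ) (x : E) : co (P S x) = S.indicator (co x) := co_mk _ _ (ind_le S x)

theorem P_le (S : Set ℕ) (x : E) : ‖P S x‖ ≤ ‖x‖ :=
  norm_le fun g h => by rw [co_P]; exact ind_le S x g h

theorem P_P (S R : Set ℕ) (x : E) : P S (P R x) = P (S ∩ R) x :=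
  ext_co (by simp only [co_P, Set.indicator_indicator])

theorem P_split {a b : ℕ} (h : a ≤ b) (x : E) : P (Ici a) x = P (Ico a b) x + P (Ici b) x :=
  ext_co (by
    rw [co_add, co_P, co_P, co_P, ← Ico_union_Ici_eq_Ici h, indicator_union_of_disjoint
      (s := Ico a b) (t := Ici b) (disjoint_left.mpr fun u h1 h2 => absurd h1.2 (not_lt.mpr h2))]
    rfl)

theorem P_split' (a : ℕ) (x : E) : x = P (Iio a) x + P (Ici a) x :=
  ext_co (by rw [co_add, co_P, co_P, ← compl_Iio, indicator_self_add_compl])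

/-- basis vector -/
noncomputable def e (i : ℕ) : E :=
  mk (Pi.single i 1) 1 fun g h => by
    have : pr (Pi.single i 1) g = g i := by
      rw [pr_eq, Finset.sum_eq_single i (fun j _ hj => by simp [hj]) fun h => by
        simpa using h]
      simp
    exact this ▸ h.le_one i

theorem co_e (i : ℕ) : co (e i) = Pi.single i 1 := co_mk _ _ _

theorem P_Iio (m : ℕ) (x : E) : P (Iio m) x = ∑ i ∈ Finset.range m, co x i • e i := by
  refine ext_co (funext fun j => ?_)
  simp only [co_P, co_sum, co_smul, co_e, Pi.smul_apply, smul_eq_mul, Pi.single_apply, mul_ite,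
    mul_one, mul_zero, Finset.sum_ite_eq, Finset.mem_range, Set.indicator, mem_Iio]

theorem lower {m : ℕ → ℕ} (hm : Monotone m) (K : Finset ℕ) (hK : ∀ j ∈ K, K.card ≤ m j) (x : E) :
    ∑ j ∈ K, ‖P (Ico (m j) (m (j + 1))) x‖ ≤ 2 * ‖x‖ := by
  refine le_of_forall_pos_le_add fun ε hε => ?_
  have hδ : 0 < ε / (K.card + 1) := by positivity
  choose g hg hg' using fun j => exists_pr (x := P (Ico (m j) (m (j + 1))) x)
    (sub_lt_self _ hδ)
  have k : ∀ j u, (g j).filter (· ∈ Ico (m j) (m (j + 1))) u ≠ 0 → m j ≤ u ∧ u < m (j + 1) :=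
    fun j u h => by
      by_contra hc
      exact h (filter_apply_neg _ _ hc)
  have h1 := pr_le (W.comb K _ (fun j _ => (hg j).filter (· ∈ Ico (m j) (m (j + 1))))
    (fun j _ l _ hjl u hu v hv => (k j u hu).2.trans_le ((hm hjl).trans (k l v hv).1))
    fun j hj u hu => (hK j hj).trans (k j u hu).1) x
  rw [map_smul, map_sum, smul_eq_mul] at h1
  have h2 := Finset.sum_le_sum fun j (_ : j ∈ K) => (hg' j).le
  simp only [co_P, pr_ind, Finset.sum_sub_distrib, Finset.sum_const, nsmul_eq_mul] at h2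
  have h3 : K.card * (ε / (K.card + 1)) ≤ ε := by
    rw [← mul_div_assoc, div_le_iff₀ (by positivity)]
    nlinarith
  linarith

theorem iter {nx : ℕ → ℕ} (h : ∀ m, m < nx m) (a : ℕ) : StrictMono fun k => nx^[k] a :=
  strictMono_nat_of_lt_succ fun k => by rw [Function.iterate_succ_apply']; exact h _

theorem tail (x : E) : Tendsto (fun m => ‖P (Ici m) x‖) atTop (𝓝 0) := by
  have anti : Antitone fun m => ‖P (Ici m) x‖ := fun a b hab => by
    have := P_le (Ici b) (P (Ici a) x)
    rwa [P_P, Ici_inter_Ici, sup_eq_left.mpr hab] at this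
  refine tendsto_order.mpr ⟨fun a ha => .of_forall fun m => ha.trans_le (norm_nonneg _),
    fun ε hε => ?_⟩
  by_contra hc
  have h1 : ∀ m, ε ≤ ‖P (Ici m) x‖ := fun m => by
    by_contra h
    exact hc (eventually_atTop.mpr ⟨m, fun b hb => (anti hb).trans_lt (not_le.mp h)⟩)
  have h2 : ∀ m, ∃ m', m < m' ∧ ε / 2 ≤ ‖P (Ico m m') x‖ := fun m => by
    obtain ⟨g, hg, h⟩ := exists_pr (x := P (Ici m) x) (c := ε / 2) (by linarith [h1 m])
    obtain ⟨b, hb⟩ := g.support.bddAbove
    refine ⟨max m b + 1, by omega, h.le.trans (le_trans (le_of_eq ?_) (pr_le hg _))⟩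
    rw [co_P, co_P, pr_eq, pr_eq]
    refine Finset.sum_congr rfl fun i hi => ?_
    have : i < max m b + 1 := by have := hb hi; omega
    simp [Set.indicator, this]
  choose nx h3 h4 using h2
  obtain ⟨N, hN⟩ := exists_nat_gt (4 * ‖x‖ / ε)
  have h5 := lower (iter h3 N).monotone (Finset.range N)
    (fun j _ => by simpa using (iter h3 N).monotone (Nat.zero_le j)) x
  have h6 : ∑ j ∈ Finset.range N, ε / 2 ≤ _ := le_trans (Finset.sum_le_sum fun j _ => by
    rw [Function.iterate_succ_apply']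
    exact h4 _) h5
  rw [Finset.sum_const, Finset.card_range, nsmul_eq_mul] at h6
  rw [div_lt_iff₀ hε] at hN
  linarith

open Classical in
theorem est {m : ℕ → ℕ} (hm : Monotone m) {x : ℕ → E} (h1 : ∀ i, ‖x i‖ ≤ 1)
    (hs : ∀ i u, co (x i) u ≠ 0 → m i ≤ u ∧ u < m (i + 1)) {n : ℕ} (hn : 0 < n)
    (hn' : 2 * m 1 ≤ n) : ‖x 0 + (1 / n : ℝ) • ∑ i ∈ Finset.range n, x (i + 1)‖ ≤ 7 / 4 := by
  refine norm_le fun g hg => ?_
  have hn0 : (0 : ℝ) < n := by exact_mod_cast hn
  have k1 : ∀ i g, W g → pr (co (x i)) g ≤ 1 := fun i g hg => (pr_le hg _).trans (h1 i)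
  rw [← ev_eq g hg, map_add, map_smul, map_sum, smul_eq_mul, one_div, inv_mul_eq_div]
  simp only [ev_eq]
  by_cases h0 : pr (co (x 0)) g = 0
  · have := Finset.sum_le_sum fun i (_ : i ∈ Finset.range n) => k1 (i + 1) g hg
    rw [Finset.sum_const, Finset.card_range, nsmul_eq_mul, ← div_le_iff₀' hn0] at this
    linarith
  suffices ∑ i ∈ Finset.range n, pr (co (x (i + 1))) g ≤ 3 / 4 * n by
    rw [← div_le_iff₀ hn0] at this
    linarith [k1 0 g hg]
  have sing : ∀ u c, pr (co (x 0)) (single u c) ≠ 0 →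
      ∑ i ∈ Finset.range n, pr (co (x (i + 1))) (single u c) ≤ 3 / 4 * n := fun u c h => by
    rw [Finset.sum_eq_zero fun i _ => ?_]
    · positivity
    · rw [pr_single] at h ⊢
      have a1 := (hs 0 u (right_ne_zero_of_mul h)).2
      by_contra hc
      have a2 := (hs (i + 1) u (right_ne_zero_of_mul hc)).1
      have a3 := hm (show 0 + 1 ≤ i + 1 by omega)
      omega
  cases hg with
  | pos u => exact sing u _ h0
  | neg u => exact sing u _ h0
  | comb K g hW hsep hN =>
    have meet : ∀ i j, pr (co (x i)) (g j) ≠ 0 → ∃ u, g j u ≠ 0 ∧ m i ≤ u ∧ u < m (i + 1) :=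
      fun i j h => by
        by_contra hc
        push Not at hc
        exact h (pr_zero fun u hu => by
          by_contra h'
          exact absurd (hs i u h').2 (not_lt.mpr (hc u hu (hs i u h').1)))
    simp only [map_smul, map_sum, smul_eq_mul] at h0 ⊢
    have hK : K.card ≤ m 1 := by
      obtain ⟨j, hj, h⟩ := Finset.exists_ne_zero_of_sum_ne_zero (right_ne_zero_of_mul h0)
      obtain ⟨u, a1, -, a2⟩ := meet 0 j h
      exact (hN j hj u a1).trans a2.le
    let B := (Finset.range n).filter fun i => ∃ k ∈ K, ∃ j ∈ K, j < k ∧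
      pr (co (x (i + 1))) (g j) ≠ 0 ∧ pr (co (x (i + 1))) (g k) ≠ 0
    have hB : B.card ≤ K.card := by
      choose! k hk j hj hjk a1 a2 using fun i (hi : i ∈ B) => (Finset.mem_filter.mp hi).2
      have aux : ∀ i ∈ B, ∀ i' ∈ B, k i = k i' → ¬ i < i' := fun i hi i' hi' e hlt => by
        obtain ⟨v, b1, -, b2⟩ := meet _ _ (a2 i hi)
        obtain ⟨u, b3, b4, -⟩ := meet _ _ (a1 i' hi')
        have := hsep _ (hj i' hi') _ (hk i' hi') (hjk i' hi') u b3 v (e ▸ b1)
        have := hm (show i + 1 + 1 ≤ i' + 1 by omega)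
        omega
      refine Finset.card_le_card_of_injOn k hk fun i hi i' hi' e => ?_
      have := aux i hi i' hi' e
      have := aux i' hi' i hi e.symm
      omega
    have term : ∀ i ∈ Finset.range n, 1 / 2 * ∑ j ∈ K, pr (co (x (i + 1))) (g j) ≤
        1 / 2 + if i ∈ B then 1 / 2 else 0 := fun i hi => by
      split_ifs with hb
      · have := k1 (i + 1) _ (W.comb K g hW hsep hN)
        simp only [map_smul, map_sum, smul_eq_mul] at this
        linarith
      · by_cases h : ∃ j ∈ K, pr (co (x (i + 1))) (g j) ≠ 0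
        · obtain ⟨j, hj, a0⟩ := h
          rw [Finset.sum_eq_single j (fun k hk hkj => ?_) fun h => absurd hj h]
          · linarith [k1 (i + 1) _ (hW j hj)]
          · by_contra hc
            rcases lt_or_gt_of_ne hkj with h | h
            · exact hb (Finset.mem_filter.mpr ⟨hi, j, hj, k, hk, h, hc, a0⟩)
            · exact hb (Finset.mem_filter.mpr ⟨hi, k, hk, j, hj, h, a0, hc⟩)
        · push Not at h
          rw [Finset.sum_eq_zero h]
          norm_num
    refine (Finset.sum_le_sum term).trans ?_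
    rw [Finset.sum_add_distrib, Finset.sum_ite_mem,
      Finset.inter_eq_right.mpr (Finset.filter_subset _ _)]
    simp only [Finset.sum_const, Finset.card_range, nsmul_eq_mul]
    have : (2 * B.card : ℝ) ≤ n := by exact_mod_cast (by omega : 2 * B.card ≤ n)
    linarith

theorem shrink (f : E →L[ℝ] ℝ) : Tendsto (fun m => ‖f.comp (P (Ici m))‖) atTop (𝓝 0) := by
  have anti : Antitone fun m => ‖f.comp (P (Ici m))‖ := fun a b hab =>
    ContinuousLinearMap.opNorm_le_bound _ (norm_nonneg _) fun x => by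
      have := (f.comp (P (Ici a))).le_opNorm (P (Ici b) x)
      rw [ContinuousLinearMap.comp_apply, P_P, Ici_inter_Ici, sup_eq_right.mpr hab] at this
      exact this.trans (mul_le_mul_of_nonneg_left (P_le _ _) (norm_nonneg _))
  have bdd : BddBelow (range fun m => ‖f.comp (P (Ici m))‖) :=
    ⟨0, by rintro _ ⟨m, rfl⟩; exact norm_nonneg _⟩
  have lim := tendsto_atTop_ciInf anti bdd
  set η := ⨅ m, ‖f.comp (P (Ici m))‖
  have h0 : 0 ≤ η := le_ciInf fun m => norm_nonneg _
  rcases h0.eq_or_lt with h | h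
  · exact h ▸ lim
  exfalso
  obtain ⟨a, ha⟩ := (lim.eventually (gt_mem_nhds (show η < 17 / 16 * η by linarith))).exists
  have h2 : ∀ m, ∃ m', m < m' ∧ ∃ y, ‖y‖ ≤ 1 ∧ 15 / 16 * η < f (P (Ico m m') y) := fun m => by
    obtain ⟨y, hy, h3⟩ := (f.comp (P (Ici m))).exists_lt_apply_of_lt_opNorm
      (r := 15 / 16 * η) (lt_of_lt_of_le (by linarith) (ciInf_le bdd m))
    obtain ⟨z, hz, h4⟩ : ∃ z, ‖z‖ ≤ 1 ∧ 15 / 16 * η < f (P (Ici m) z) := by
      rcases lt_abs.mp h3 with h4 | h4
      · exact ⟨y, hy.le, h4⟩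
      · exact ⟨-y, by simpa using hy.le, by simpa using h4⟩
    have h5 : Tendsto (fun b => f (P (Ici m) z) - f (P (Ici b) z)) atTop
        (𝓝 (f (P (Ici m) z) - f 0)) :=
      ((f.continuous.tendsto 0).comp (tendsto_zero_iff_norm_tendsto_zero.mpr (tail z))).const_sub _
    rw [map_zero, sub_zero] at h5
    obtain ⟨b, b1, b2⟩ := ((eventually_gt_atTop m).and (h5.eventually (lt_mem_nhds h4))).exists
    refine ⟨b, b1, z, hz, ?_⟩
    rw [P_split b1.le z, map_add] at b2
    linarith
  choose nx h3 y h4 h5 using h2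
  have hm := iter h3 a
  set m := fun k => nx^[k] a with hmdef
  have hs : ∀ k, m (k + 1) = nx (m k) := fun k => Function.iterate_succ_apply' _ _ _
  have hn : 0 < 2 * m 1 := by have := hm (show 0 < 1 by omega); simp only [hmdef] at *; omega
  let x := fun i => P (Ico (m i) (m (i + 1))) (y (m i))
  have h6 := est hm.monotone (x := x) (fun i => (P_le _ _).trans (h4 _))
    (fun i u hu => by
      rw [co_P] at hu
      exact mem_Ico.mp (mem_of_indicator_ne_zero hu)) hn le_rfl
  have h7 : ∀ i, f.comp (P (Ici a)) (x i) = f (x i) := fun i => by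
    rw [ContinuousLinearMap.comp_apply, P_P, inter_eq_right.mpr]
    exact fun u hu => le_trans (hm.monotone (Nat.zero_le i)) hu.1
  have h8 : ∀ i, 15 / 16 * η < f (x i) := fun i => by
    simp only [x, hs]
    exact h5 _
  have h9 := (le_abs_self _).trans ((f.comp (P (Ici a))).le_of_opNorm_le_of_le ha.le h6)
  rw [map_add, map_smul, map_sum, smul_eq_mul, one_div, inv_mul_eq_div] at h9
  simp only [h7] at h9
  have hn0 : (0 : ℝ) < (2 * m 1 : ℕ) := by exact_mod_cast hn
  have := Finset.sum_le_sum fun i (_ : i ∈ Finset.range (2 * m 1)) => (h8 (i + 1)).le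
  rw [Finset.sum_const, Finset.card_range, nsmul_eq_mul, ← le_div_iff₀' hn0] at this
  linarith [h8 0]

theorem refl (Φ : StrongDual ℝ (StrongDual ℝ E)) : ∃ x : E, ∀ f, Φ f = f x := by
  have hb : ∀ g, W g → pr (fun i => Φ (cl i)) g ≤ ‖Φ‖ := fun g hg => by
    have e1 : ev g hg = ∑ i ∈ g.support, g i • cl i := by
      ext x
      rw [ev_eq, pr_eq]
      simp [co]
    have e2 : ‖ev g hg‖ ≤ 1 := ContinuousLinearMap.opNorm_le_bound _ zero_le_one fun x => by
      rw [ev_eq, one_mul]
      exact abs_pr_le hg x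
    have := (le_abs_self _).trans (Φ.le_opNorm_of_le e2)
    rw [e1, map_sum] at this
    simpa [pr_eq] using this
  refine ⟨mk _ _ hb, fun f => ?_⟩
  set x := mk _ _ hb
  have hx : ∀ i, co x i = Φ (cl i) := fun i => congrFun (co_mk _ _ hb) i
  have e1 : ∀ m, Φ f - f x = Φ (f.comp (P (Ici m))) - f (P (Ici m) x) := fun m => by
    have a1 : f = ∑ i ∈ Finset.range m, f (e i) • cl i + f.comp (P (Ici m)) := by
      ext y
      conv_lhs => rw [P_split' m y, map_add, P_Iio, map_sum]
      simp [co, mul_comm]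
    have a2 : f x = ∑ i ∈ Finset.range m, f (e i) * Φ (cl i) + f (P (Ici m) x) := by
      conv_lhs => rw [P_split' m x, map_add, P_Iio, map_sum]
      simp [hx, mul_comm]
    have a3 := congrArg Φ a1
    simp only [map_add, map_sum, map_smul, smul_eq_mul] at a3
    linarith
  have l1 := (Φ.continuous.tendsto 0).comp (tendsto_zero_iff_norm_tendsto_zero.mpr (shrink f))
  have l2 := (f.continuous.tendsto 0).comp (tendsto_zero_iff_norm_tendsto_zero.mpr (tail x))
  have l3 := l1.sub l2
  simp only [Function.comp, ← e1, map_zero, sub_zero, tendsto_const_nhds_iff] at l3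
  linarith

end Pool.Agent.H.MP_4a5259_an
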